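import Pool.Agent.WK7.Main
import Pool.Agent.WK7.Pol
import Pool.Agent.WK4.Xcs

/-!
# MP_7d2497_an: the explicit criterion
-/

set_option autoImplicit false

namespace Pool.Agent.Helper8_X4

open MeasureTheory Filter Topology Complex
open Pool.Agent.H78E Pool.Agent.WK Pool.Agent.WK2 Pool.Agent.WK4 Pool.Agent.WK6 Pool.Agent.WK7
open Pool.Agent.WK3 (QC Lin)

/-- The points of a set without infinite bounded closed subsets are isolated. -/
theorem isolated {L : Set ℝ} (h : BddFin L) {p : ℝ} (hp : p ∈ L) :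
    ∃ ρ : ℝ, 0 < ρ ∧ ∀ x ∈ L, |x - p| ≤ ρ → x = p := by
  by_contra hcon
  have h1 : ∀ n : ℕ, ∃ x : ℝ, x ∈ L ∧ |x - p| ≤ 1 / ((n : ℝ) + 1) ∧ x ≠ p := by
    intro n
    by_contra h2
    apply hcon
    refine ⟨1 / ((n : ℝ) + 1), by positivity, fun x hx hxp => ?_⟩
    by_contra h3
    exact h2 ⟨x, hx, hxp, h3⟩
  choose x hxL hxp hne using h1
  have hlim : Tendsto x atTop (𝓝 p) := by
    rw [tendsto_iff_dist_tendsto_zero]
    refine squeeze_zero (fun _ => dist_nonneg) (fun n => ?_)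
      tendsto_one_div_add_atTop_nhds_zero_nat
    rw [Real.dist_eq]
    exact hxp n
  have hK : IsCompact (insert p (Set.range x)) := hlim.isCompact_insert_range
  have hfin : (insert p (Set.range x)).Finite := by
    refine h _ ?_ hK.isClosed hK.isBounded
    rintro y (hy | ⟨n, rfl⟩)
    · rw [hy]
      exact hp
    · exact hxL n
  have hfin2 : (Set.range x).Finite := hfin.subset (Set.subset_insert _ _)
  have hpn : p ∈ (Set.range x)ᶜ := by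
    rintro ⟨n, hn⟩
    exact hne n hn
  have h3 : (Set.range x)ᶜ ∈ 𝓝 p := hfin2.isClosed.isOpen_compl.mem_nhds hpn
  obtain ⟨n, hn⟩ := (hlim.eventually h3).exists
  exact hn ⟨n, rfl⟩

theorem near_of_bddFin {φ : ℝ → ℝ} (hφ : IsWeight φ) {L : Set ℝ} (h : BddFin L) :
    ∀ p ∈ L, NearI φ L p := by
  intro p hp
  obtain ⟨ρ, hρ, h1⟩ := isolated h hp
  refine ⟨ρ, φ 0, hρ, fun F c A hF hA t ht => ?_⟩
  refine Xcs.Ineq_single hφ p le_rfl F c A (fun x hx => ?_) hA t ht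
  obtain ⟨h2, h3⟩ := hF hx
  rw [h1 x h2 h3]
  simp

/-- The explicit criterion. -/
theorem explicit (φ : ℝ → ℝ) (hφ : IsWeight φ) (L : Set ℝ)
    (h : (QC φ ∧ Sml φ) ∨ (Reg φ ∧ (Lin φ ∨ (QC φ ∧ Big φ) ∨ BddFin L))) :
    PropertyE φ L ↔ FarI φ L ∧
      (Lin φ ∨ ((∀ K ⊆ L, IsClosed K → K.Countable) ∧ ∀ p ∈ L, NearI φ L p) ∨
        (Big φ ∧ FarC L)) := by
  have hz : ((QC φ ∧ Sml φ) ∨ (Reg φ ∧ (Lin φ ∨ (QC φ ∧ Big φ)))) → (PropertyE φ L ↔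
      FarI φ L ∧ (Lin φ ∨ ((∀ K ⊆ L, IsClosed K → K.Countable) ∧ ∀ p ∈ L, NearI φ L p) ∨
        (Big φ ∧ FarC L))) := by
    intro h
    rw [zreg φ hφ h L]
    constructor
    · rintro ⟨h1, h2 | h2 | h2⟩
      · exact ⟨h1, Or.inl h2⟩
      · exact ⟨h1, Or.inr (Or.inl h2.2)⟩
      · exact ⟨h1, Or.inr (Or.inr h2)⟩
    · rintro ⟨h1, h2 | h2 | h2⟩
      · exact ⟨h1, Or.inl h2⟩
      · rcases h with h | ⟨_, h | h⟩
        · exact ⟨h1, Or.inr (Or.inl ⟨h.2, h2⟩)⟩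
        · exact ⟨h1, Or.inl h⟩
        · exact ⟨h1, Or.inr (Or.inr ⟨h.2, 0, fun K hK _ hcl => h2.1 K hK hcl⟩)⟩
      · exact ⟨h1, Or.inr (Or.inr h2)⟩
  rcases h with h | ⟨hR, h | h | h⟩
  · exact hz (Or.inl h)
  · exact hz (Or.inr ⟨hR, Or.inl h⟩)
  · exact hz (Or.inr ⟨hR, Or.inr h⟩)
  · rw [((main2 cl reg).1 φ hφ L (Or.inr h)).2.2 hR]
    constructor
    · intro h1
      exact ⟨h1, Or.inr (Or.inl ⟨bddFin_countable h, near_of_bddFin hφ h⟩)⟩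
    · exact fun h1 => h1.1

/-- The polynomial weights are covered. -/
theorem poly_cov (a b : ℝ) (ha : 0 ≤ a) (hb : 0 ≤ b) : IsWeight (wp a b) ∧
    ((QC (wp a b) ∧ Sml (wp a b)) ∨ (Reg (wp a b) ∧ Lin (wp a b))) := by
  refine ⟨isWeight_wp ha hb, ?_⟩
  rcases le_total a 1 with h | h
  · exact Or.inl ⟨wp_qc ha h, wp_sml a b⟩
  · exact Or.inr ⟨reg_wp reg ha hb, 1, fun t ht => wp_linear h ht⟩

end Pool.Agent.Helper8_X4
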